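import Mathlib

/-!
# Aperiodic Delone sets with quadratic patch counting functions in all dimensions (MP_90314f_co)
Combinatorial part: definitions and statements of the parts.

The lattice is `ℤ^(e+1) × ℤ`, `e ≥ 1` (dimension `d = e + 2 ≥ 3`). Layers at the heights `hh e k = 2^((e+2)k)`.
In the layer number `k` the defects are the points whose coordinate number `k mod (e+1)` is divisible by `2^k`.
-/

set_option autoImplicit false

namespace Pool.Agent.H89.LG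

/-- the height of the layer number `k` -/
def hh (e k : ℕ) : ℤ := 2 ^ ((e + 2) * k)

/-- the coordinate which matters in the layer number `k` -/
def ix (e k : ℕ) : Fin (e + 1) := Fin.ofNat (e + 1) k

/-- the defects -/
def Def (e : ℕ) (x : Fin (e + 1) → ℤ) (h : ℤ) : Prop :=
  ∃ k : ℕ, h = hh e k ∧ (2 : ℤ) ^ k ∣ x (ix e k)

/-- two points look the same in the cube of side `2 n` -/
def Same (e n : ℕ) (p q : (Fin (e + 1) → ℤ) × ℤ) : Prop :=
  ∀ (u : Fin (e + 1) → ℤ) (s : ℤ), (∀ i, |u i| ≤ n) → |s| ≤ n →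
    (Def e (p.1 + u) (p.2 + s) ↔ Def e (q.1 + u) (q.2 + s))

/-- the layer `k` is visible from height `h` -/
def Vis (e n : ℕ) (h : ℤ) (k : ℕ) : Prop := |hh e k - h| ≤ n

theorem hh_pos (e k : ℕ) : 0 < hh e k := by unfold hh; positivity

theorem hh_succ (e k : ℕ) : hh e (k + 1) = 2 ^ (e + 2) * hh e k := by
  unfold hh; rw [Nat.mul_succ, pow_add]; ring

theorem hh_step (e k : ℕ) : 4 * hh e k ≤ hh e (k + 1) := by
  rw [hh_succ]
  have : (4 : ℤ) ≤ 2 ^ (e + 2) := by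
    rw [pow_add]; have : (1 : ℤ) ≤ 2 ^ e := one_le_pow₀ (by norm_num)
    linarith
  nlinarith [hh_pos e k]

theorem hh_lt {e k l : ℕ} (h : k < l) : 4 * hh e k ≤ hh e l := by
  induction l with
  | zero => omega
  | succ l ih =>
    rcases Nat.lt_succ_iff_lt_or_eq.1 h with h | h
    · have := ih h; have := hh_step e l; have := hh_pos e l; linarith
    · subst h; exact hh_step e k

theorem hh_mono {e k l : ℕ} (h : k ≤ l) : hh e k ≤ hh e l := by
  rcases h.lt_or_eq with h | h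
  · have := hh_lt (e := e) h; have := hh_pos e k; linarith
  · subst h; exact le_rfl

theorem hh_inj {e k l : ℕ} (h : hh e k = hh e l) : k = l := by
  rcases lt_trichotomy k l with h1 | h1 | h1
  · have := hh_lt (e := e) h1; have := hh_pos e k; linarith
  · exact h1
  · have := hh_lt (e := e) h1; have := hh_pos e l; linarith

/-- counting classes through a code -/
theorem ncard_le_of_code {α β ι : Type*} (S : Set α) (f : α → β) (code : α → ι)
    (I : Finset ι) (hI : ∀ a ∈ S, code a ∈ I)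
    (h : ∀ a ∈ S, ∀ b ∈ S, code a = code b → f a = f b) :
    (f '' S).Finite ∧ (f '' S).ncard ≤ I.card := by
  classical
  rcases S.eq_empty_or_nonempty with rfl | ⟨a0, -⟩
  · simp
  haveI : Nonempty α := ⟨a0⟩
  have key : ∃ g : β → ι, Set.InjOn g (f '' S) ∧ ∀ b ∈ f '' S, g b ∈ (I : Set ι) := by
    choose! r hr using fun b (hb : b ∈ f '' S) => hb
    refine ⟨fun b => code (r b), ?_, ?_⟩
    · intro b hb c hc hbc
      rw [← (hr b hb).2, ← (hr c hc).2]
      exact h _ (hr b hb).1 _ (hr c hc).1 hbc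
    · intro b hb
      exact hI _ (hr b hb).1
  obtain ⟨g, hg, hgI⟩ := key
  have hfin : (f '' S).Finite := Set.Finite.of_injOn hgI hg I.finite_toSet
  refine ⟨hfin, ?_⟩
  rw [← Set.ncard_coe_finset I]
  exact Set.ncard_le_ncard_of_injOn g hgI hg I.finite_toSet

/-- STUB `LG-NONE` (15 lines). Nothing visible: one class. `S = {p | ∀ k, ¬ Vis e n p.2 k}`: if
`p, q ∈ S` then `Same e n p q` (both sides are false: `Def (p.1+u) (p.2+s)` gives `k` with
`p.2 + s = hh e k`, so `|hh e k - p.2| = |s| ≤ n`). Use `ncard_le_of_code` with `ι = Unit`. -/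
def S_NONE : Prop := ∀ (e n : ℕ) (β : Type) (f : (Fin (e + 1) → ℤ) × ℤ → β),
  (∀ p q, Same e n p q → f p = f q) →
  (f '' {p | ∀ k, ¬ Vis e n p.2 k}).Finite ∧ (f '' {p | ∀ k, ¬ Vis e n p.2 k}).ncard ≤ 1

/-- STUB `LG-LOW` (60 lines). Low points. Let `4 n ≤ hh e M`. Let
`S = {p | 1 - n ≤ p.2 ≤ hh e M + n}`. Code `p ↦ (p.2, fun i => p.1 i % 2^M)` in
`Icc (1-n) (hh e M + n) ×ˢ Fintype.piFinset (fun _ => Ico 0 (2^M))`, of cardinality
`(hh e M + 2 n) * (2^M)^(e+1)`. If the codes of `p, q ∈ S` are equal and `|s| ≤ n`,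
`p.2 + s = hh e k`, then `hh e k ≤ hh e M + 2 n ≤ (3/2) hh e M < hh e (M+1)`, so `k ≤ M`, and `2^k ∣ 2^M`,
so `2^k` divides `p.1 i - q.1 i` for all `i`; hence `Same e n p q`. -/
def S_LOW : Prop := ∀ (e n M : ℕ) (β : Type) (f : (Fin (e + 1) → ℤ) × ℤ → β),
  4 * (n : ℤ) ≤ hh e M → (∀ p q, Same e n p q → f p = f q) →
  (f '' {p | 1 - (n : ℤ) ≤ p.2 ∧ p.2 ≤ hh e M + n}).Finite ∧
  ((f '' {p | 1 - (n : ℤ) ≤ p.2 ∧ p.2 ≤ hh e M + n}).ncard : ℤ) ≤
    (hh e M + 2 * n) * (2 ^ M) ^ (e + 1)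

/-- STUB `LG-ONE` (40 lines). Only one layer is visible from a high point: if `4 n ≤ hh e M`,
`hh e M + n < h`, `Vis e n h k` and `|s| ≤ n`, then `h + s = hh e l` implies `l = k`; so
`Def e x (h + s) ↔ s = hh e k - h ∧ 2^k ∣ x (ix e k)`.
(`hh e k ≥ h - n > hh e M`, same for `l`; if `l < k` then `hh e k ≥ 4 hh e l`, so
`hh e k - hh e l ≥ 3 hh e l > 3 hh e M ≥ 12 n`, but both are at distance at most `n` from `h`
(if `n = 0` both are equal to `h`; use `hh_pos`).) -/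
def S_ONE : Prop := ∀ (e n M k : ℕ) (h : ℤ) (x : Fin (e + 1) → ℤ) (s : ℤ),
  4 * (n : ℤ) ≤ hh e M → hh e M + n < h → Vis e n h k → |s| ≤ n →
  (Def e x (h + s) ↔ s = hh e k - h ∧ (2 : ℤ) ^ k ∣ x (ix e k))

/-- STUB `LG-SMALL` (60 lines). High points which see a layer of small period:
`S = {p | hh e M + n < p.2 ∧ ∃ k, Vis e n p.2 k ∧ 2^k ≤ 2n}`. Choose `k = k p`. Code
`p ↦ (hh e k - p.2, 2^k + p.1 (ix e k) % 2^k)` in `Icc (-n) n ×ˢ Ico 0 (4n)`, of cardinality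
`(2n+1) * 4n`. If the codes are equal: `2^k ≤ second component < 2^(k+1)` determines `k`
(`Nat.log` or `Nat.pow_lt_pow_iff_right`), so `k p = k q`, then `p.2 = q.2`
and `p.1 (ix e k) ≡ q.1 (ix e k)` mod `2^k`. `Same e n p q` by `S_ONE` on both sides. -/
def S_SMALL : Prop := S_ONE → ∀ (e n M : ℕ) (β : Type) (f : (Fin (e + 1) → ℤ) × ℤ → β),
  4 * (n : ℤ) ≤ hh e M → (∀ p q, Same e n p q → f p = f q) →
  (f '' {p | hh e M + n < p.2 ∧ ∃ k, Vis e n p.2 k ∧ 2 ^ k ≤ 2 * n}).Finite ∧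
  (f '' {p | hh e M + n < p.2 ∧ ∃ k, Vis e n p.2 k ∧ 2 ^ k ≤ 2 * n}).ncard ≤
    (2 * n + 1) * (4 * n)

/-- STUB `LG-BIG` (70 lines). High points which see a layer of large period:
`S = {p | hh e M + n < p.2 ∧ ∃ k, Vis e n p.2 k ∧ 2n < 2^k}`. Choose `k = k p`. Let
`b p ∈ [-n, n]` with `2^k ∣ p.1 (ix e k) + b` if there is such a number (it is unique since
`2^k > 2n`) and `b p = n + 1` if there is none. Code `p ↦ (ix e k, hh e k - p.2, b p)` in
`univ ×ˢ Icc (-n) n ×ˢ Icc (-n) (n+1)`, of cardinality `(e+1) (2n+1) (2n+2)`. By `S_ONE`, for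
`|u i| ≤ n`, `|s| ≤ n`: `Def e (p.1 + u) (p.2 + s) ↔ s = hh e k - p.2 ∧ u (ix e k) = b p`. So equal
codes (the layers may be different) give `Same e n p q`. -/
def S_BIG : Prop := S_ONE → ∀ (e n M : ℕ) (β : Type) (f : (Fin (e + 1) → ℤ) × ℤ → β),
  4 * (n : ℤ) ≤ hh e M → (∀ p q, Same e n p q → f p = f q) →
  (f '' {p | hh e M + n < p.2 ∧ ∃ k, Vis e n p.2 k ∧ 2 * n < 2 ^ k}).Finite ∧
  (f '' {p | hh e M + n < p.2 ∧ ∃ k, Vis e n p.2 k ∧ 2 * n < 2 ^ k}).ncard ≤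
    (e + 1) * ((2 * n + 1) * (2 * n + 2))

/-- STUB `LG-CNT` (60 lines). At most `C n^2` classes. For `n ≥ 1` let `M` be the smallest number with
`4 n ≤ hh e M` (it exists, `M ≥ 1` as `hh e 0 = 1`, and `hh e (M-1) < 4n`, so
`hh e M < 2^(e+2) * 4 n`). `(2^M)^(e+1) ≤ hh e M = (2^M)^(e+2)`. Every `p` is in one of the four
sets: if it sees a layer `k` then `p.2 ≥ hh e k - n ≥ 1 - n`, so it is low or high; if it is high
and sees `k` then `2^k ≤ 2n` or `2n < 2^k`. So `range f` is a union of four sets and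
`C = (2^(e+2) * 4 + 2) * (2^(e+2) * 4) + 1 + 12 + 12 (e+1)` is enough. -/
def S_CNT : Prop := S_NONE → S_LOW → S_ONE → S_SMALL → S_BIG → ∀ e : ℕ, ∃ C : ℕ, ∀ n : ℕ, 1 ≤ n →
  ∀ (β : Type) (f : (Fin (e + 1) → ℤ) × ℤ → β), (∀ p q, Same e n p q → f p = f q) →
    (Set.range f).Finite ∧ (Set.range f).ncard ≤ C * n ^ 2

/-- STUB `LG-PER` (50 lines). No period: let `(w, c)` be a period of `Def`. `Def e 0 (hh e k)` holds
for all `k`, so `hh e k + c = hh e l` for some `l`. Take `k` with `hh e k > 2 |c|`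
(`hh e k ≥ 2^k > k`): if `l ≠ k` then `|hh e l - hh e k| ≥ (3/4) hh e k > |c|` (`hh_lt`), so `l = k` and
`c = 0`. For given `i` take `k = i + m (e+1)` with `2^k > |w i|` (`ix e k = i`): `Def e w (hh e k)`,
so `2^k ∣ w i` (`hh_inj`) and `w i = 0`. -/
def S_PER : Prop := ∀ (e : ℕ) (w : Fin (e + 1) → ℤ) (c : ℤ),
  (∀ x h, Def e (x + w) (h + c) ↔ Def e x h) → w = 0 ∧ c = 0

/-- STUB `LG-NSUC` (20 lines). The point above a defect is not a defect: `hh e k + 1 = hh e l` is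
impossible (`l = k` no; for `l < k`, `hh e k ≥ 4 hh e l`; for `k < l`, `hh e l ≥ 4 hh e k` gives
`3 hh e k ≤ 1`). -/
def S_NSUC : Prop := ∀ (e : ℕ) (x y : Fin (e + 1) → ℤ) (h : ℤ), Def e x h → ¬ Def e y (h + 1)

end Pool.Agent.H89.LG
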