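import Pool.Agent.H89.LG.Real
import Pool.Agent.H89.LG.T.NONE
import Pool.Agent.H89.LG.T.NSUC
import Pool.Agent.H89.LG.T.ONE
import Pool.Agent.H89.LG.T.PER
import Pool.Agent.H89.LG.T.LOW
import Pool.Agent.H89.LG.T.SMALL
import Pool.Agent.H89.LG.T.BIG
import Pool.Agent.H89.LG.T.CNT

/-!
# Aperiodic Delone sets with quadratic patch counting functions
-/

set_option autoImplicit false

namespace Pool.Agent.H89.LG

theorem final (e : ℕ) : ∃ C : ℕ, ∀ r R : ℝ, 0 < r → (Real.sqrt (e + 2 : ℕ) + 2) * r ≤ R →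
    ∃ X : Set (Eu (e + 2)),
      (∀ z : Eu (e + 2), (X ∩ Metric.ball z r).Subsingleton) ∧
      (∀ z : Eu (e + 2), (X ∩ Metric.closedBall z R).Nonempty) ∧
      (∀ t : ℝ, r ≤ t → (patches X t).Finite ∧ ((patches X t).ncard : ℝ) ≤ C * (t / r) ^ 2) ∧
      (∀ v : Eu (e + 2), (∀ x, x + v ∈ X ↔ x ∈ X) → v = 0) := by
  obtain ⟨C, hC⟩ := count T.NONE.main T.LOW.main T.ONE.main T.SMALL.main T.BIG.main T.CNT.main e
  refine ⟨4 * C, fun r R hr hR => ⟨XX e (2 * r), ?_, ?_, ?_, ?_⟩⟩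
  · rintro z x ⟨hx, hxz⟩ y ⟨hy, hyz⟩
    refine sep (by linarith) hx hy ?_
    rw [Metric.mem_ball] at hxz hyz
    have := dist_triangle_right x y z
    linarith
  · intro z
    obtain ⟨x, hx, hd⟩ := dens T.NSUC.main (e := e) (s := 2 * r) (by linarith) z
    refine ⟨x, hx, ?_⟩
    rw [Metric.mem_closedBall, dist_comm]
    refine hd.trans (le_trans (le_of_eq ?_) hR)
    ring
  · intro t ht
    have ht0 : 0 < t := hr.trans_le ht
    set n : ℕ := ⌈t / (2 * r)⌉₊ with hn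
    have h1 : 1 ≤ n := Nat.one_le_iff_ne_zero.2 (Nat.ceil_pos.2 (by positivity)).ne'
    have h2 : t ≤ 2 * r * n := by
      have := Nat.le_ceil (t / (2 * r))
      rw [div_le_iff₀ (by linarith)] at this
      linarith
    obtain ⟨k1, k2⟩ := hC (2 * r) (by linarith) n h1 t h2
    refine ⟨k1, ?_⟩
    have h3 : (n : ℝ) ≤ 2 * (t / r) := by
      have h4 : (n : ℝ) < t / (2 * r) + 1 := Nat.ceil_lt_add_one (by positivity)
      have h5 : 1 ≤ t / r := by rw [le_div_iff₀ hr]; linarith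
      have h6 : t / (2 * r) = (t / r) / 2 := by field_simp
      rw [h6] at h4
      linarith
    have h7 : ((patches (XX e (2 * r)) t).ncard : ℝ) ≤ C * (n : ℝ) ^ 2 := by exact_mod_cast k2
    refine h7.trans ?_
    push_cast
    have h8 : (n : ℝ) ^ 2 ≤ (2 * (t / r)) ^ 2 := pow_le_pow_left₀ (by positivity) h3 2
    have h9 : (0 : ℝ) ≤ C := Nat.cast_nonneg C
    nlinarith
  · intro v hv
    exact noperiod T.PER.main (by linarith) hv

end Pool.Agent.H89.LG
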