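import Pool.Agent.H89.LG.Defs

/-!
# The Delone sets in `ℝ^d`
-/

set_option autoImplicit false

namespace Pool.Agent.H89.LG

/-- Euclidean space -/
abbrev Eu (d : ℕ) := EuclideanSpace ℝ (Fin d)

/-- the lattice point with horizontal coordinates `p.1` and height `p.2` -/
noncomputable def emb {e : ℕ} (p : (Fin (e + 1) → ℤ) × ℤ) : Eu (e + 2) :=
  WithLp.toLp 2 (Fin.snoc (α := fun _ => ℝ) (fun i => (p.1 i : ℝ)) (p.2 : ℝ))

theorem emb_castSucc {e : ℕ} (p : (Fin (e + 1) → ℤ) × ℤ) (i : Fin (e + 1)) :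
    emb p i.castSucc = ((p.1 i : ℤ) : ℝ) := by
  simp [emb]

theorem emb_last {e : ℕ} (p : (Fin (e + 1) → ℤ) × ℤ) :
    emb p (Fin.last (e + 1)) = ((p.2 : ℤ) : ℝ) := by
  simp [emb]

theorem ext_emb {e : ℕ} {x y : Eu (e + 2)} (h1 : ∀ i : Fin (e + 1), x i.castSucc = y i.castSucc)
    (h2 : x (Fin.last (e + 1)) = y (Fin.last (e + 1))) : x = y := by
  ext i
  refine Fin.lastCases h2 h1 i

theorem emb_add {e : ℕ} (p q : (Fin (e + 1) → ℤ) × ℤ) : emb (p + q) = emb p + emb q := by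
  refine ext_emb (fun i => ?_) ?_
  · rw [PiLp.add_apply, emb_castSucc, emb_castSucc, emb_castSucc]; push_cast [Prod.fst_add, Pi.add_apply]; ring
  · rw [PiLp.add_apply, emb_last, emb_last, emb_last]; push_cast [Prod.snd_add]; ring

theorem emb_sub {e : ℕ} (p q : (Fin (e + 1) → ℤ) × ℤ) : emb (p - q) = emb p - emb q := by
  refine ext_emb (fun i => ?_) ?_
  · rw [PiLp.sub_apply, emb_castSucc, emb_castSucc, emb_castSucc]; push_cast [Prod.fst_sub, Pi.sub_apply]; ring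
  · rw [PiLp.sub_apply, emb_last, emb_last, emb_last]; push_cast [Prod.snd_sub]; ring

theorem emb_inj {e : ℕ} {p q : (Fin (e + 1) → ℤ) × ℤ} (h : emb p = emb q) : p = q := by
  refine Prod.ext (funext fun i => ?_) ?_
  · have : emb p i.castSucc = emb q i.castSucc := by rw [h]
    rw [emb_castSucc, emb_castSucc] at this; exact Int.cast_injective (α := ℝ) this
  · have : emb p (Fin.last (e + 1)) = emb q (Fin.last (e + 1)) := by rw [h]
    rw [emb_last, emb_last] at this; exact Int.cast_injective (α := ℝ) this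

theorem apply_le_norm {d : ℕ} (x : Eu d) (i : Fin d) : |x i| ≤ ‖x‖ := by
  have := PiLp.norm_apply_le x i
  simpa using this

/-- different lattice points have distance at least `1` -/
theorem one_le_norm {e : ℕ} {p : (Fin (e + 1) → ℤ) × ℤ} (h : p ≠ 0) : 1 ≤ ‖emb p‖ := by
  by_contra hc
  push Not at hc
  apply h
  refine Prod.ext (funext fun i => ?_) ?_
  · have h1 := (apply_le_norm (emb p) i.castSucc).trans_lt hc
    rw [emb_castSucc] at h1
    have h3 : |((p.1 i : ℤ) : ℝ)| < 1 := h1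
    have h2 : |p.1 i| < 1 := by exact_mod_cast h3
    simpa using Int.abs_lt_one_iff.1 h2
  · have h1 := (apply_le_norm (emb p) (Fin.last (e + 1))).trans_lt hc
    rw [emb_last] at h1
    have h3 : |((p.2 : ℤ) : ℝ)| < 1 := h1
    have h2 : |p.2| < 1 := by exact_mod_cast h3
    simpa using Int.abs_lt_one_iff.1 h2

/-- rounding -/
theorem round_emb {e : ℕ} (x : Eu (e + 2)) : ∃ p : (Fin (e + 1) → ℤ) × ℤ,
    ‖x - emb p‖ ≤ Real.sqrt (e + 2 : ℕ) / 2 := by
  refine ⟨(fun i => round (x i.castSucc), round (x (Fin.last (e + 1)))), ?_⟩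
  rw [EuclideanSpace.norm_eq]
  have h : ∀ i, ‖(x - emb (fun i => round (x i.castSucc), round (x (Fin.last (e + 1))))) i‖ ^ 2 ≤
      (1 / 2 : ℝ) ^ 2 := by
    intro i
    apply pow_le_pow_left₀ (norm_nonneg _)
    rw [PiLp.sub_apply, Real.norm_eq_abs]
    refine Fin.lastCases ?_ (fun i => ?_) i
    · rw [emb_last]; exact abs_sub_round _
    · rw [emb_castSucc]; exact abs_sub_round _
  have h2 : (∑ i, ‖(x - emb (fun i => round (x i.castSucc), round (x (Fin.last (e + 1))))) i‖ ^ 2) ≤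
      (e + 2 : ℕ) * (1 / 2 : ℝ) ^ 2 := by
    refine (Finset.sum_le_sum fun i _ => h i).trans ?_
    simp
  refine (Real.sqrt_le_sqrt h2).trans ?_
  rw [Real.sqrt_mul (by positivity), Real.sqrt_sq (by norm_num)]
  linarith

/-- the Delone set with scale `s` -/
def XX (e : ℕ) (s : ℝ) : Set (Eu (e + 2)) :=
  {x | ∃ p : (Fin (e + 1) → ℤ) × ℤ, ¬ Def e p.1 p.2 ∧ x = s • emb p}

theorem mem_XX {e : ℕ} {s : ℝ} (hs : 0 < s) (p : (Fin (e + 1) → ℤ) × ℤ) :
    s • emb p ∈ XX e s ↔ ¬ Def e p.1 p.2 := by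
  constructor
  · rintro ⟨q, hq, h⟩
    have : emb p = emb q := by
      have := congrArg (fun v => s⁻¹ • v) h
      simpa [smul_smul, inv_mul_cancel₀ hs.ne'] using this
    rwa [emb_inj this]
  · intro h; exact ⟨p, h, rfl⟩

theorem sep {e : ℕ} {s : ℝ} (hs : 0 < s) {x y : Eu (e + 2)} (hx : x ∈ XX e s) (hy : y ∈ XX e s)
    (h : dist x y < s) : x = y := by
  obtain ⟨p, -, rfl⟩ := hx
  obtain ⟨q, -, rfl⟩ := hy
  by_contra hne
  have hpq : p - q ≠ 0 := by
    intro h0; exact hne (by rw [sub_eq_zero.1 h0])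
  have h1 := one_le_norm hpq
  rw [dist_eq_norm, ← smul_sub, ← emb_sub, norm_smul, Real.norm_eq_abs, abs_of_pos hs] at h
  nlinarith

theorem dens (hN : S_NSUC) {e : ℕ} {s : ℝ} (hs : 0 < s) (z : Eu (e + 2)) :
    ∃ x ∈ XX e s, dist z x ≤ s * (Real.sqrt (e + 2 : ℕ) / 2 + 1) := by
  obtain ⟨p, hp⟩ := round_emb (s⁻¹ • z)
  have hz : z = s • (s⁻¹ • z) := by rw [smul_smul, mul_inv_cancel₀ hs.ne', one_smul]
  have hd : ‖z - s • emb p‖ ≤ s * (Real.sqrt (e + 2 : ℕ) / 2) := by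
    rw [hz, ← smul_sub, norm_smul, Real.norm_eq_abs, abs_of_pos hs]
    exact mul_le_mul_of_nonneg_left hp hs.le
  by_cases hD : Def e p.1 p.2
  · refine ⟨s • emb (p + (0, 1)), ⟨p + (0, 1), ?_, rfl⟩, ?_⟩
    · simpa using hN e p.1 p.1 p.2 hD
    · have h1 : ‖emb ((0, 1) : (Fin (e + 1) → ℤ) × ℤ)‖ ≤ 1 := by
        rw [EuclideanSpace.norm_eq, Fin.sum_univ_castSucc]
        simp [emb_castSucc, emb_last]
      rw [dist_eq_norm, emb_add, smul_add, ← sub_sub]
      refine (norm_sub_le _ _).trans ?_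
      rw [norm_smul, Real.norm_eq_abs, abs_of_pos hs]
      nlinarith
  · refine ⟨s • emb p, ⟨p, hD, rfl⟩, ?_⟩
    rw [dist_eq_norm]
    linarith

/-- the patch of radius `t` at `x` -/
def patch {d : ℕ} (X : Set (Eu d)) (x : Eu d) (t : ℝ) : Set (Eu d) :=
  (fun y => y - x) '' (X ∩ Metric.closedBall x t)

/-- the patch at a lattice point as a function of the surroundings -/
theorem patch_eq {e : ℕ} {s : ℝ} (hs : 0 < s) (p : (Fin (e + 1) → ℤ) × ℤ) (t : ℝ) :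
    patch (XX e s) (s • emb p) t =
      {v | ∃ u : (Fin (e + 1) → ℤ) × ℤ, ¬ Def e (p + u).1 (p + u).2 ∧ ‖s • emb u‖ ≤ t ∧
        v = s • emb u} := by
  ext v
  constructor
  · rintro ⟨y, ⟨⟨q, hq, rfl⟩, hy⟩, rfl⟩
    refine ⟨q - p, ?_, ?_, ?_⟩
    · rwa [add_sub_cancel]
    · rw [emb_sub, smul_sub]
      simpa [dist_eq_norm] using hy
    · show s • emb q - s • emb p = _
      rw [emb_sub, smul_sub]
  · rintro ⟨u, hu, ht, rfl⟩
    refine ⟨s • emb (p + u), ⟨⟨p + u, hu, rfl⟩, ?_⟩, ?_⟩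
    · rw [Metric.mem_closedBall, dist_eq_norm, emb_add, smul_add, add_sub_cancel_left]
      exact ht
    · show s • emb (p + u) - s • emb p = _
      rw [emb_add, smul_add, add_sub_cancel_left]

theorem patch_congr {e n : ℕ} {s t : ℝ} (hs : 0 < s) (hn : t ≤ s * n)
    {p q : (Fin (e + 1) → ℤ) × ℤ} (h : Same e n p q) :
    patch (XX e s) (s • emb p) t = patch (XX e s) (s • emb q) t := by
  rw [patch_eq hs, patch_eq hs]
  have key : ∀ u : (Fin (e + 1) → ℤ) × ℤ, ‖s • emb u‖ ≤ t →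
      (Def e (p + u).1 (p + u).2 ↔ Def e (q + u).1 (q + u).2) := by
    intro u hu
    rw [norm_smul, Real.norm_eq_abs, abs_of_pos hs] at hu
    have hu2 : ‖emb u‖ ≤ n := le_of_mul_le_mul_left (hu.trans hn) hs
    refine h u.1 u.2 (fun i => ?_) ?_
    · have h1 := (apply_le_norm (emb u) i.castSucc).trans hu2
      rw [emb_castSucc] at h1
      have h3 : |((u.1 i : ℤ) : ℝ)| ≤ ((n : ℤ) : ℝ) := by simpa using h1
      exact_mod_cast h3
    · have h1 := (apply_le_norm (emb u) (Fin.last (e + 1))).trans hu2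
      rw [emb_last] at h1
      have h3 : |((u.2 : ℤ) : ℝ)| ≤ ((n : ℤ) : ℝ) := by simpa using h1
      exact_mod_cast h3
  ext v
  constructor
  · rintro ⟨u, hu, ht, rfl⟩
    exact ⟨u, fun h' => hu ((key u ht).2 h'), ht, rfl⟩
  · rintro ⟨u, hu, ht, rfl⟩
    exact ⟨u, fun h' => hu ((key u ht).1 h'), ht, rfl⟩

/-- all the patches of radius `t` -/
def patches {d : ℕ} (X : Set (Eu d)) (t : ℝ) : Set (Set (Eu d)) := {P | ∃ x ∈ X, P = patch X x t}

theorem count (h1 : S_NONE) (h2 : S_LOW) (h3 : S_ONE) (h4 : S_SMALL) (h5 : S_BIG) (h6 : S_CNT)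
    (e : ℕ) : ∃ C : ℕ, ∀ s : ℝ, 0 < s → ∀ n : ℕ, 1 ≤ n → ∀ t : ℝ, t ≤ s * n →
      (patches (XX e s) t).Finite ∧ (patches (XX e s) t).ncard ≤ C * n ^ 2 := by
  obtain ⟨C, hC⟩ := h6 h1 h2 h3 h4 h5 e
  refine ⟨C, fun s hs n hn t ht => ?_⟩
  obtain ⟨k1, k2⟩ := hC n hn _ (fun p => patch (XX e s) (s • emb p) t)
    (fun p q h => patch_congr hs ht h)
  have hsub : patches (XX e s) t ⊆ Set.range (fun p => patch (XX e s) (s • emb p) t) := by
    rintro P ⟨x, ⟨p, hp, rfl⟩, rfl⟩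
    exact ⟨p, rfl⟩
  exact ⟨k1.subset hsub, (Set.ncard_le_ncard hsub k1).trans k2⟩

theorem noperiod (hP : S_PER) {e : ℕ} {s : ℝ} (hs : 0 < s) {v : Eu (e + 2)}
    (hv : ∀ x, x + v ∈ XX e s ↔ x ∈ XX e s) : v = 0 := by
  -- `v` is `s` times a lattice vector
  obtain ⟨p0, hp0⟩ : ∃ p : (Fin (e + 1) → ℤ) × ℤ, ¬ Def e p.1 p.2 :=
    ⟨(0, 0), fun ⟨k, hk, _⟩ => by have := hh_pos e k; simp at hk; omega⟩
  obtain ⟨q, hq, hqe⟩ := (hv (s • emb p0)).2 ((mem_XX hs p0).2 hp0)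
  have hv2 : v = s • emb (q - p0) := by
    rw [emb_sub, smul_sub, ← hqe, add_sub_cancel_left]
  have h := hP e (q - p0).1 (q - p0).2 (fun x h => by
    have := hv (s • emb (x, h))
    rw [hv2, ← smul_add, ← emb_add, mem_XX hs, mem_XX hs] at this
    exact not_iff_not.1 this)
  have h0 : q - p0 = 0 := Prod.ext h.1 h.2
  rw [hv2, h0]
  have : emb (0 : (Fin (e + 1) → ℤ) × ℤ) = 0 := by
    have := emb_sub (0 : (Fin (e + 1) → ℤ) × ℤ) 0
    simpa using this
  rw [this, smul_zero]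

end Pool.Agent.H89.LG
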